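import Pool.Agent.helper38.OB.Spec

set_option autoImplicit false

namespace Pool.Agent.OB

open Finset

theorem GC_wt_nonneg (V : Finset ℕ) (w : ℕ → ℝ) (hw : ∀ x ∈ V, 0 ≤ w x ∧ w x ≤ 1) (A : Finset ℕ) (hA : A ⊆ V) :
    0 ≤ (∏ x ∈ A, w x) * ∏ x ∈ V \ A, (1 - w x) := by
  refine mul_nonneg (Finset.prod_nonneg fun x hx => (hw x (hA hx)).1) (Finset.prod_nonneg fun x hx => ?_)
  have := (hw x (Finset.mem_sdiff.1 hx).1).2
  linarith

theorem GC_pr_mono (V : Finset ℕ) (w : ℕ → ℝ) (hw : ∀ x ∈ V, 0 ≤ w x ∧ w x ≤ 1) (P Q : Finset ℕ → Prop)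
    (h : ∀ A, A ⊆ V → P A → Q A) : pr V w P ≤ pr V w Q := by
  classical
  unfold pr
  refine Finset.sum_le_sum_of_subset_of_nonneg ?_ ?_
  · intro A hA
    rw [Finset.mem_filter, Finset.mem_powerset] at hA ⊢
    exact ⟨hA.1, h A hA.1 hA.2⟩
  · intro A hA _
    rw [Finset.mem_filter, Finset.mem_powerset] at hA
    exact GC_wt_nonneg V w hw A hA.1

theorem GC_sumsq (N : ℕ) :
    ∑ t ∈ Finset.Icc (-(N : ℤ)) N, 1 / max 1 ((t : ℝ) ^ 2) ≤ 5 - 4 / (2 * (N : ℝ) + 1) := by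
  induction N with
  | zero => simp; norm_num
  | succ N ih =>
    have hset : Finset.Icc (-((N + 1 : ℕ) : ℤ)) ((N + 1 : ℕ) : ℤ) =
        insert ((N : ℤ) + 1) (insert (-((N : ℤ) + 1)) (Finset.Icc (-(N : ℤ)) N)) := by
      ext t
      simp only [Finset.mem_Icc, Finset.mem_insert]
      push_cast
      omega
    have h1 : (-((N : ℤ) + 1)) ∉ Finset.Icc (-(N : ℤ)) N := by
      simp only [Finset.mem_Icc]
      omega
    have h2 : ((N : ℤ) + 1) ∉ insert (-((N : ℤ) + 1)) (Finset.Icc (-(N : ℤ)) N) := by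
      simp only [Finset.mem_insert, Finset.mem_Icc]
      omega
    rw [hset, Finset.sum_insert h2, Finset.sum_insert h1]
    have hN : (0 : ℝ) ≤ N := Nat.cast_nonneg N
    have hsq : (1 : ℝ) ≤ ((N : ℝ) + 1) ^ 2 := by nlinarith
    have e1 : (max 1 ((((N : ℤ) + 1 : ℤ) : ℝ) ^ 2)) = ((N : ℝ) + 1) ^ 2 := by
      push_cast
      exact max_eq_right hsq
    have e2 : (max 1 (((-((N : ℤ) + 1) : ℤ) : ℝ) ^ 2)) = ((N : ℝ) + 1) ^ 2 := by
      push_cast
      rw [show (-((N : ℝ) + 1)) ^ 2 = ((N : ℝ) + 1) ^ 2 by ring]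
      exact max_eq_right hsq
    rw [e1, e2]
    have hkey : 1 / ((N : ℝ) + 1) ^ 2 + 1 / ((N : ℝ) + 1) ^ 2 ≤ 4 / (2 * (N : ℝ) + 1) - 4 / (2 * ((N + 1 : ℕ) : ℝ) + 1) := by
      push_cast
      rw [div_add_div _ _ (by positivity) (by positivity), div_sub_div _ _ (by positivity) (by positivity),
        div_le_div_iff₀ (by positivity) (by positivity)]
      nlinarith [mul_nonneg hN hN, mul_nonneg (mul_nonneg hN hN) hN, mul_nonneg (mul_nonneg (mul_nonneg hN hN) hN) hN,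
        mul_nonneg (mul_nonneg (mul_nonneg (mul_nonneg hN hN) hN) hN) hN]
    linarith

theorem GC_Bs (h : ℕ) (hh : 3 ≤ h) : 1 < Bs h := by
  unfold Bs be C0
  have h1 : 1 < 16 * h ^ 2 := by nlinarith
  have h2 : 1 < (16 * h ^ 2) ^ 6 := Nat.one_lt_pow (by norm_num) h1
  exact Nat.one_lt_pow (by omega) h2

theorem GC_mem {h : ℕ} (e : Fin h → ℤ) (t : ℤ) (V : Finset ℕ) (x : Fin h → ℕ) :
    x ∈ RP e t V ↔ (∀ i, x i ∈ V) ∧ Function.Injective x ∧ lf e x = t := by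
  classical
  unfold RP RQ Inj
  simp only [Finset.mem_filter, Fintype.mem_piFinset]
  tauto

theorem GC_mem_inn {ι : Type} (F : Finset ι) (T : ι → Finset ℕ) (A : Finset ℕ) (i : ι) :
    i ∈ inn F T A ↔ i ∈ F ∧ T i ⊆ A := by
  classical
  unfold inn
  simp only [Finset.mem_filter]

theorem GC_mem_im {j : ℕ} (x : Fin j → ℕ) (z : ℕ) : z ∈ im x ↔ ∃ i, x i = z := by
  unfold im
  simp

theorem GC (hBAS : BAS_stmt) (hWTS : WTS_stmt) (hMD : MD_stmt) (hPRD : PRD_stmt) : GC_stmt := by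
  classical
  intro h hodd hh δ hδ
  obtain ⟨C, hC, hMDh⟩ := hMD h hodd hh
  have hB := GC_Bs h hh
  have hBr : (1 : ℝ) < (Bs h : ℝ) := by exact_mod_cast hB
  set θ : ℝ := min 1 δ / 5 with hθdef
  have hθ : 0 < θ := by
    rw [hθdef]
    exact div_pos (lt_min one_pos hδ) (by norm_num)
  have hθ1 : θ ≤ 1 := by
    rw [hθdef]
    have := min_le_left (1 : ℝ) δ
    linarith
  obtain ⟨K0, hK0⟩ := pow_unbounded_of_one_lt (Real.exp (2 * C) * (Bs h : ℝ) ^ 2 / θ) (by norm_num : (1 : ℝ) < 2)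
  set K : ℕ := K0 + 1 with hKdef
  have hK : Real.exp (2 * C) / 2 ^ K ≤ θ / (Bs h : ℝ) ^ 2 := by
    have h2 : (2 : ℝ) ^ K0 ≤ 2 ^ K := pow_le_pow_right₀ (by norm_num) (by omega)
    rw [div_le_div_iff₀ (by positivity) (by positivity)]
    have h3 := (div_lt_iff₀ hθ).1 hK0
    nlinarith
  refine ⟨K, by omega, ?_⟩
  intro κ hκ hκ1 l0 L e he N
  have hw : ∀ x ∈ U h l0 L, 0 ≤ wt h κ x ∧ wt h κ x ≤ 1 := by
    intro x hx
    unfold U at hx
    rw [Finset.mem_biUnion] at hx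
    obtain ⟨l, _, hl⟩ := hx
    obtain ⟨w1, w2, w3, _⟩ := hWTS h hh κ hκ hκ1 l
    rw [w1 x hl]
    exact ⟨w2.le, w3⟩
  have hterm : ∀ t : ℤ, pr (U h l0 L) (wt h κ)
      (fun A => ¬ NoDisj A e t (K * (Nat.clog (Bs h) t.natAbs + 1))) ≤ θ * (1 / max 1 ((t : ℝ) ^ 2)) := by
    intro t
    set J : ℕ := Nat.clog (Bs h) t.natAbs with hJ
    have hsub : ∀ x ∈ RP e t (U h l0 L), im x ⊆ U h l0 L := by
      intro x hx z hz
      rw [GC_mem] at hx
      rw [GC_mem_im] at hz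
      obtain ⟨i, rfl⟩ := hz
      exact hx.1 i
    have h1 := hPRD (U h l0 L) (wt h κ) hw (Fin h → ℕ) (RP e t (U h l0 L)) im hsub (K * (J + 1))
    have h2 : pr (U h l0 L) (wt h κ) (fun A => ¬ NoDisj A e t (K * (J + 1))) ≤
        pr (U h l0 L) (wt h κ) (fun A => ∃ G : Finset (Fin h → ℕ), G ⊆ inn (RP e t (U h l0 L)) im A ∧
          G.card = K * (J + 1) ∧ ∀ i ∈ G, ∀ k ∈ G, i ≠ k → Disjoint (im i) (im k)) := by
      refine GC_pr_mono _ _ hw _ _ ?_
      intro A hA hnd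
      unfold NoDisj at hnd
      rw [not_not] at hnd
      obtain ⟨G, hG1, hG2, hG3⟩ := hnd
      refine ⟨G, ?_, hG2, hG3⟩
      intro x hx
      have hx2 := hG1 hx
      rw [GC_mem] at hx2
      rw [GC_mem_inn, GC_mem]
      refine ⟨⟨fun i => hA (hx2.1 i), hx2.2⟩, ?_⟩
      intro z hz
      rw [GC_mem_im] at hz
      obtain ⟨i, rfl⟩ := hz
      exact hx2.1 i
    have h3 : ∑ x ∈ RP e t (U h l0 L), ∏ z ∈ im x, wt h κ z = Ex h κ (RP e t (U h l0 L)) := by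
      unfold Ex
      refine Finset.sum_congr rfl fun x hx => ?_
      rw [GC_mem] at hx
      unfold im
      rw [Finset.prod_image (fun a _ b _ hab => hx.2.1 hab)]
    have h4 := hMDh κ hκ hκ1 l0 L e he t
    have h5 : 0 ≤ Ex h κ (RP e t (U h l0 L)) := by
      rw [← h3]
      exact Finset.sum_nonneg fun x hx => Finset.prod_nonneg fun z hz => (hw z (hsub x hx hz)).1
    have hJ0 : (0 : ℝ) ≤ (J : ℝ) + 1 := by positivity
    have h6 : (∑ x ∈ RP e t (U h l0 L), ∏ z ∈ im x, wt h κ z) ^ (K * (J + 1)) / ((K * (J + 1)).factorial : ℝ) ≤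
        (Real.exp (2 * C) / 2 ^ K) ^ (J + 1) := by
      rw [h3]
      have hx : (Ex h κ (RP e t (U h l0 L))) ^ (K * (J + 1)) ≤ (C * ((J : ℝ) + 1)) ^ (K * (J + 1)) :=
        pow_le_pow_left₀ h5 h4 _
      have hf : (0 : ℝ) < ((K * (J + 1)).factorial : ℝ) := by exact_mod_cast Nat.factorial_pos _
      have hexp := Real.pow_div_factorial_le_exp (2 * (C * ((J : ℝ) + 1))) (by positivity) (K * (J + 1))
      have h2K : (0 : ℝ) < 2 ^ (K * (J + 1)) := by positivity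
      calc (Ex h κ (RP e t (U h l0 L))) ^ (K * (J + 1)) / ((K * (J + 1)).factorial : ℝ)
          ≤ (C * ((J : ℝ) + 1)) ^ (K * (J + 1)) / ((K * (J + 1)).factorial : ℝ) :=
            div_le_div_of_nonneg_right hx hf.le
        _ = ((2 * (C * ((J : ℝ) + 1))) ^ (K * (J + 1)) / ((K * (J + 1)).factorial : ℝ)) / 2 ^ (K * (J + 1)) := by
            rw [mul_pow 2]
            field_simp
        _ ≤ Real.exp (2 * (C * ((J : ℝ) + 1))) / 2 ^ (K * (J + 1)) := div_le_div_of_nonneg_right hexp h2K.le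
        _ = (Real.exp (2 * C) / 2 ^ K) ^ (J + 1) := by
            rw [div_pow, ← pow_mul, ← Real.exp_nat_mul]
            congr 2
            push_cast
            ring
    have h7 : (Real.exp (2 * C) / 2 ^ K) ^ (J + 1) ≤ θ * (1 / max 1 ((t : ℝ) ^ 2)) := by
      have ht : (t.natAbs : ℝ) ≤ (Bs h : ℝ) ^ J := by
        have := Nat.le_pow_clog hB t.natAbs
        exact_mod_cast this
      have ht2 : (t : ℝ) ^ 2 ≤ ((Bs h : ℝ) ^ J) ^ 2 := by
        have h8 : (t : ℝ) ^ 2 = (t.natAbs : ℝ) ^ 2 := by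
          rw [Nat.cast_natAbs, Int.cast_abs, sq_abs]
        rw [h8]
        exact pow_le_pow_left₀ (Nat.cast_nonneg _) ht 2
      have hBJ : (1 : ℝ) ≤ ((Bs h : ℝ) ^ J) ^ 2 := one_le_pow₀ (one_le_pow₀ hBr.le)
      have hmax : max 1 ((t : ℝ) ^ 2) ≤ ((Bs h : ℝ) ^ J) ^ 2 := max_le hBJ ht2
      have hmax0 : (0 : ℝ) < max 1 ((t : ℝ) ^ 2) := lt_of_lt_of_le one_pos (le_max_left _ _)
      calc (Real.exp (2 * C) / 2 ^ K) ^ (J + 1) ≤ (θ / (Bs h : ℝ) ^ 2) ^ (J + 1) :=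
            pow_le_pow_left₀ (by positivity) hK _
        _ = θ ^ (J + 1) * (1 / ((Bs h : ℝ) ^ 2) ^ (J + 1)) := by rw [div_pow]; ring
        _ ≤ θ * (1 / ((Bs h : ℝ) ^ J) ^ 2) := by
            have hθJ : θ ^ (J + 1) ≤ θ := by
              calc θ ^ (J + 1) = θ ^ J * θ := pow_succ _ _
                _ ≤ 1 * θ := mul_le_mul_of_nonneg_right (pow_le_one₀ hθ.le hθ1) hθ.le
                _ = θ := one_mul _
            have hle : 1 / ((Bs h : ℝ) ^ 2) ^ (J + 1) ≤ 1 / ((Bs h : ℝ) ^ J) ^ 2 := by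
              refine one_div_le_one_div_of_le (by positivity) ?_
              rw [← pow_mul, ← pow_mul]
              exact pow_le_pow_right₀ hBr.le (by omega)
            exact mul_le_mul hθJ hle (by positivity) hθ.le
        _ ≤ θ * (1 / max 1 ((t : ℝ) ^ 2)) := by
            refine mul_le_mul_of_nonneg_left ?_ hθ.le
            exact one_div_le_one_div_of_le hmax0 hmax
    exact le_trans h2 (le_trans h1 (le_trans h6 h7))
  calc ∑ t ∈ Finset.Icc (-(N : ℤ)) N, pr (U h l0 L) (wt h κ)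
        (fun A => ¬ NoDisj A e t (K * (Nat.clog (Bs h) t.natAbs + 1)))
      ≤ ∑ t ∈ Finset.Icc (-(N : ℤ)) N, θ * (1 / max 1 ((t : ℝ) ^ 2)) := Finset.sum_le_sum fun t _ => hterm t
    _ = θ * ∑ t ∈ Finset.Icc (-(N : ℤ)) N, 1 / max 1 ((t : ℝ) ^ 2) := by rw [Finset.mul_sum]
    _ ≤ θ * 5 := by
        refine mul_le_mul_of_nonneg_left ?_ hθ.le
        have := GC_sumsq N
        have h0 : (0 : ℝ) ≤ 4 / (2 * (N : ℝ) + 1) := by positivity
        linarith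
    _ ≤ δ := by
        rw [hθdef]
        have := min_le_right (1 : ℝ) δ
        linarith

end Pool.Agent.OB
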