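import Pool.Agent.helper38.OB.Spec

set_option autoImplicit false

namespace Pool.Agent.OB

open Finset

theorem PRB_wt_nonneg (V : Finset ℕ) (w : ℕ → ℝ) (hw : ∀ x ∈ V, 0 ≤ w x ∧ w x ≤ 1) (A : Finset ℕ) (hA : A ⊆ V) :
    0 ≤ (∏ x ∈ A, w x) * ∏ x ∈ V \ A, (1 - w x) := by
  refine mul_nonneg (Finset.prod_nonneg fun x hx => (hw x (hA hx)).1) (Finset.prod_nonneg fun x hx => ?_)
  have := (hw x (Finset.mem_sdiff.1 hx).1).2
  linarith

theorem PRB_pr_eq (V : Finset ℕ) (w : ℕ → ℝ) (P : Finset ℕ → Prop) [DecidablePred P] :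
    pr V w P = ∑ A ∈ V.powerset, if P A then (∏ x ∈ A, w x) * ∏ x ∈ V \ A, (1 - w x) else 0 := by
  unfold pr
  rw [Finset.sum_filter]
  refine Finset.sum_congr rfl fun A _ => ?_
  by_cases h : P A
  · rw [if_pos h, if_pos h]
  · rw [if_neg h, if_neg h]

theorem PRB (hPRA : PRA_stmt) : PRB_stmt := by
  classical
  intro V w hw ι I bad hlt
  by_contra hcon
  push Not at hcon
  have h1 := (hPRA V w hw).1
  have h2 : pr V w (fun _ => True) ≤ ∑ i ∈ I, pr V w (bad i) := by
    have : ∀ i, DecidablePred (bad i) := fun i => Classical.decPred _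
    rw [PRB_pr_eq V w (fun _ => True)]
    calc ∑ A ∈ V.powerset, (if True then (∏ x ∈ A, w x) * ∏ x ∈ V \ A, (1 - w x) else 0)
        ≤ ∑ A ∈ V.powerset, ∑ i ∈ I, if bad i A then (∏ x ∈ A, w x) * ∏ x ∈ V \ A, (1 - w x) else 0 := by
          refine Finset.sum_le_sum fun A hA => ?_
          have hAV := Finset.mem_powerset.1 hA
          obtain ⟨i, hi, hb⟩ := hcon A hAV
          have h0 := PRB_wt_nonneg V w hw A hAV
          rw [if_pos trivial]
          have h5 : (∏ x ∈ A, w x) * ∏ x ∈ V \ A, (1 - w x) =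
              (if bad i A then (∏ x ∈ A, w x) * ∏ x ∈ V \ A, (1 - w x) else 0) := by rw [if_pos hb]
          refine le_of_eq_of_le h5 (Finset.single_le_sum
            (f := fun i => if bad i A then (∏ x ∈ A, w x) * ∏ x ∈ V \ A, (1 - w x) else 0) (fun j _ => ?_) hi)
          split_ifs
          · exact h0
          · exact le_rfl
      _ = ∑ i ∈ I, pr V w (bad i) := by
          rw [Finset.sum_comm]
          exact Finset.sum_congr rfl fun i _ => (PRB_pr_eq V w (bad i)).symm
  linarith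

end Pool.Agent.OB
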