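import Pool.Agent.helper38.OB.Spec

set_option autoImplicit false

namespace Pool.Agent.OB

open Finset

theorem PRF_wt_nonneg (V : Finset ℕ) (w : ℕ → ℝ) (hw : ∀ x ∈ V, 0 ≤ w x ∧ w x ≤ 1) (A : Finset ℕ) (hA : A ⊆ V) :
    0 ≤ (∏ x ∈ A, w x) * ∏ x ∈ V \ A, (1 - w x) := by
  refine mul_nonneg (Finset.prod_nonneg fun x hx => (hw x (hA hx)).1) (Finset.prod_nonneg fun x hx => ?_)
  have := (hw x (Finset.mem_sdiff.1 hx).1).2
  linarith

theorem PRF_pr_eq (V : Finset ℕ) (w : ℕ → ℝ) (P : Finset ℕ → Prop) [DecidablePred P] :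
    pr V w P = ∑ A ∈ V.powerset, if P A then (∏ x ∈ A, w x) * ∏ x ∈ V \ A, (1 - w x) else 0 := by
  unfold pr
  rw [Finset.sum_filter]
  refine Finset.sum_congr rfl fun A _ => ?_
  by_cases h : P A
  · rw [if_pos h, if_pos h]
  · rw [if_neg h, if_neg h]

theorem PRF (hPRA : PRA_stmt) : PRF_stmt := by
  classical
  intro V w hw V' hV' m hm hsum
  set W : Finset ℕ → ℝ := fun A => (∏ x ∈ A, w x) * ∏ x ∈ V \ A, (1 - w x) with hW
  have hprT : ∀ T : Finset ℕ, T ⊆ V → ∑ A ∈ V.powerset, (if T ⊆ A then W A else 0) = ∏ x ∈ T, w x := by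
    intro T hT
    have := (hPRA V w hw).2 T hT
    rw [← this, PRF_pr_eq]
  have hone : ∑ A ∈ V.powerset, W A = 1 := by
    have := (hPRA V w hw).1
    rw [← this, PRF_pr_eq]
    exact Finset.sum_congr rfl fun A _ => by rw [if_pos trivial]
  have hcard : ∀ A : Finset ℕ, ((A ∩ V').card : ℝ) = ∑ x ∈ V', (if x ∈ A then (1 : ℝ) else 0) := by
    intro A
    rw [Finset.sum_boole, Finset.inter_comm, ← Finset.filter_mem_eq_inter]
  have hE1 : ∑ A ∈ V.powerset, W A * ((A ∩ V').card : ℝ) = m := by
    calc ∑ A ∈ V.powerset, W A * ((A ∩ V').card : ℝ)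
        = ∑ A ∈ V.powerset, ∑ x ∈ V', (if {x} ⊆ A then W A else 0) := by
          refine Finset.sum_congr rfl fun A _ => ?_
          rw [hcard, Finset.mul_sum]
          refine Finset.sum_congr rfl fun x _ => ?_
          by_cases hx : x ∈ A
          · rw [if_pos hx, if_pos (Finset.singleton_subset_iff.2 hx)]; ring
          · rw [if_neg hx, if_neg (fun h => hx (Finset.singleton_subset_iff.1 h))]; ring
      _ = ∑ x ∈ V', ∏ y ∈ ({x} : Finset ℕ), w y := by
          rw [Finset.sum_comm]
          refine Finset.sum_congr rfl fun x hx => ?_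
          exact hprT {x} (Finset.singleton_subset_iff.2 (hV' hx))
      _ = m := by
          rw [← hsum]
          exact Finset.sum_congr rfl fun x _ => by rw [Finset.prod_singleton]
  have hE2 : ∑ A ∈ V.powerset, W A * ((A ∩ V').card : ℝ) ^ 2 ≤ m ^ 2 + m := by
    calc ∑ A ∈ V.powerset, W A * ((A ∩ V').card : ℝ) ^ 2
        = ∑ A ∈ V.powerset, ∑ x ∈ V', ∑ y ∈ V', (if {x, y} ⊆ A then W A else 0) := by
          refine Finset.sum_congr rfl fun A _ => ?_
          rw [hcard, sq, Finset.sum_mul_sum, Finset.mul_sum]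
          refine Finset.sum_congr rfl fun x _ => ?_
          rw [Finset.mul_sum]
          refine Finset.sum_congr rfl fun y _ => ?_
          have : ({x, y} : Finset ℕ) ⊆ A ↔ x ∈ A ∧ y ∈ A := by
            rw [Finset.insert_subset_iff, Finset.singleton_subset_iff]
          by_cases hx : x ∈ A <;> by_cases hy : y ∈ A <;> simp [this, hx, hy]
      _ = ∑ x ∈ V', ∑ y ∈ V', ∏ z ∈ ({x, y} : Finset ℕ), w z := by
          rw [Finset.sum_comm]
          refine Finset.sum_congr rfl fun x hx => ?_
          rw [Finset.sum_comm]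
          refine Finset.sum_congr rfl fun y hy => ?_
          refine hprT {x, y} ?_
          rw [Finset.insert_subset_iff, Finset.singleton_subset_iff]
          exact ⟨hV' hx, hV' hy⟩
      _ ≤ ∑ x ∈ V', ∑ y ∈ V', (w x * w y + if x = y then w x else 0) := by
          refine Finset.sum_le_sum fun x hx => Finset.sum_le_sum fun y hy => ?_
          by_cases hxy : x = y
          · subst hxy
            rw [Finset.pair_eq_singleton, Finset.prod_singleton, if_pos rfl]
            have := (hw x (hV' hx)).1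
            nlinarith
          · rw [Finset.prod_pair hxy, if_neg hxy]
            simp
      _ = m ^ 2 + m := by
          have h1 : ∀ x ∈ V', ∑ y ∈ V', (w x * w y + if x = y then w x else 0) = w x * m + w x := by
            intro x hx
            rw [Finset.sum_add_distrib, ← Finset.mul_sum, hsum, Finset.sum_ite_eq, if_pos hx]
          rw [Finset.sum_congr rfl h1, Finset.sum_add_distrib, ← Finset.sum_mul, hsum]
          ring
  have hvar : ∑ A ∈ V.powerset, W A * (((A ∩ V').card : ℝ) - m) ^ 2 ≤ m := by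
    have hexp : ∑ A ∈ V.powerset, W A * (((A ∩ V').card : ℝ) - m) ^ 2 =
        (∑ A ∈ V.powerset, W A * ((A ∩ V').card : ℝ) ^ 2) - 2 * m * (∑ A ∈ V.powerset, W A * ((A ∩ V').card : ℝ)) +
          m ^ 2 * ∑ A ∈ V.powerset, W A := by
      rw [Finset.mul_sum, Finset.mul_sum, ← Finset.sum_sub_distrib, ← Finset.sum_add_distrib]
      refine Finset.sum_congr rfl fun A _ => ?_
      ring
    rw [hexp, hE1, hone]
    linarith
  have hmain : pr V w (fun A => ((A ∩ V').card : ℝ) < m / 2) * (m ^ 2 / 4) ≤ m := by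
    refine le_trans ?_ hvar
    rw [PRF_pr_eq, Finset.sum_mul]
    refine Finset.sum_le_sum fun A hA => ?_
    have h0 := PRF_wt_nonneg V w hw A (Finset.mem_powerset.1 hA)
    split_ifs with hlt
    · refine mul_le_mul_of_nonneg_left ?_ h0
      nlinarith [hlt]
    · rw [zero_mul]
      exact mul_nonneg h0 (sq_nonneg _)
  rw [le_div_iff₀ hm]
  have hm2 : 0 < m / 4 := by positivity
  have : pr V w (fun A => ((A ∩ V').card : ℝ) < m / 2) * m * (m / 4) ≤ 4 * (m / 4) := by
    calc pr V w (fun A => ((A ∩ V').card : ℝ) < m / 2) * m * (m / 4)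
        = pr V w (fun A => ((A ∩ V').card : ℝ) < m / 2) * (m ^ 2 / 4) := by ring
      _ ≤ m := hmain
      _ = 4 * (m / 4) := by ring
  exact le_of_mul_le_mul_right this hm2

end Pool.Agent.OB
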